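import Pool.Agent.H752.KM.Stubs
import Pool.Agent.H620R2.Gauge.C

/-!
# K9: coding `PSPACE` sets of strings `0^n` into the oracle
-/

set_option autoImplicit false

namespace Pool.Agent.H752.KM

open Pool.Agent.NPC Pool.Agent.H620R2.Gauge Pool.Agent.H620R2.Gauge.CC

namespace K9

theorem uu_inj {n n' : ℕ} (h : uu n = uu n') : n = n' := by
  have h1 := congrArg List.length h
  unfold uu at h1
  rw [List.length_replicate, List.length_replicate] at h1
  exact Nat.pow_right_injective (le_refl 2) h1

theorem uu_length (n : ℕ) : (uu n).length = 2 ^ n := List.length_replicate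

/-- polynomials are smaller than the exponential function -/
theorem poly_tendsto (p : Polynomial ℕ) :
    Filter.Tendsto (fun n : ℕ => ((p.eval n : ℕ) : ℝ) / 2 ^ n) Filter.atTop (nhds 0) := by
  induction p using Polynomial.induction_on' with
  | add p q hp hq =>
    have h := hp.add hq
    rw [add_zero] at h
    refine h.congr fun n => ?_
    rw [Polynomial.eval_add]
    push_cast
    ring
  | monomial k c =>
    have h := (tendsto_pow_const_div_const_pow_of_one_lt k (r := (2 : ℝ)) one_lt_two).const_mul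
      (c : ℝ)
    rw [mul_zero] at h
    refine h.congr fun n => ?_
    rw [Polynomial.eval_monomial]
    push_cast
    ring

theorem poly_lt (p : Polynomial ℕ) : ∃ n₀ : ℕ, ∀ n ≥ n₀, p.eval n < 2 ^ n := by
  have h := (poly_tendsto p).eventually (gt_mem_nhds (zero_lt_one' ℝ))
  obtain ⟨n₀, hn₀⟩ := Filter.eventually_atTop.1 h
  refine ⟨n₀, fun n hn => ?_⟩
  have h1 := hn₀ n hn
  rw [div_lt_one (by positivity)] at h1
  exact_mod_cast h1

open Classical in
/-- the oracle -/
noncomputable def Ph (T : Set ℕ) (V : ℕ → Oracle → Prop) (B : Oracle) (y : List Bool) : Bool :=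
  if h : ∃ n : ℕ, n ∈ T ∧ y = uu n then
    decide (V h.choose (fun z => if _hz : z.length < y.length then Ph T V B z else false))
  else B y
termination_by y.length

theorem Ph_not (T : Set ℕ) (V : ℕ → Oracle → Prop) (B : Oracle) (y : List Bool)
    (h : ∀ n ∈ T, y ≠ uu n) : Ph T V B y = B y := by
  rw [Ph, dif_neg]
  rintro ⟨n, hn, hy⟩
  exact h n hn hy

open Classical in
theorem Ph_uu (T : Set ℕ) (V : ℕ → Oracle → Prop) (B : Oracle) {n : ℕ} (hn : n ∈ T) :
    Ph T V B (uu n) = true ↔ V n (cut (2 ^ n - 1) (Ph T V B)) := by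
  have h : ∃ n' : ℕ, n' ∈ T ∧ uu n = uu n' := ⟨n, hn, rfl⟩
  rw [Ph, dif_pos h, decide_eq_true_iff, ← uu_inj h.choose_spec.2]
  have e : (fun z : List Bool => if _hz : z.length < (uu n).length then Ph T V B z else false) =
      cut (2 ^ n - 1) (Ph T V B) := by
    funext z
    unfold cut
    have hpos : 0 < 2 ^ n := by positivity
    by_cases hz : z.length < (uu n).length
    · rw [dif_pos hz, if_pos]
      rw [uu_length] at hz
      omega
    · rw [dif_neg hz, if_neg]
      rw [uu_length] at hz
      omega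
  rw [e]

end K9

open K9 in
theorem t_code : St_code := by
  intro T
  obtain ⟨g, hg⟩ := exists_enum
  refine ⟨Ph T (fun n A => Acc (g (lab T n)).1 A (List.replicate n false)),
    fun B y h => Ph_not T _ B y h, ?_⟩
  rintro B L ⟨M, p, hM⟩
  obtain ⟨e, he⟩ := hg (M, p)
  obtain ⟨b, hb⟩ := act_length M p
  obtain ⟨n₀, hn₀⟩ := poly_lt b
  refine ⟨e, n₀, fun n hn hnT hlab => ?_⟩
  rw [Ph_uu T _ B hnT, hlab, he]
  set A := Ph T (fun n A => Acc (g (lab T n)).1 A (List.replicate n false)) B with hA
  set x : List Bool := List.replicate n false with hx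
  have hxl : x.length = n := List.length_replicate
  obtain ⟨hM1, s, z, hs, hz, hL⟩ := hM x
  have hcong : ∀ s, M.Reach (cut (2 ^ n - 1) A) x s ↔ M.Reach A x s := by
    refine reach_congr (fun s => s.length ≤ p.eval x.length) hM1 ?_
    intro s q h1 h2
    have h3 := hb x s h1
    rw [h2, List.length_cons, hxl] at h3
    have h4 := hn₀ n hn
    unfold cut
    rw [if_pos (by omega)]
  constructor
  · intro hxL
    refine ⟨s, (hcong s).2 hs, ?_⟩
    rw [hz, hL.1 hxL]
  · rintro ⟨t, ht, ht2⟩
    have hst := reach_unique hs ((hcong t).1 ht) ⟨_, hz⟩ ⟨_, ht2⟩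
    rw [hst, ht2] at hz
    simp only [List.cons.injEq, true_and] at hz
    exact hL.2 hz.symm

end Pool.Agent.H752.KM
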